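import Pool.Agent.P.MP_29765e_al.All.Main

set_option autoImplicit false

namespace Pool.Agent.Results.MP_29765e_al.AllPrimes

/-- For every prime `p ≥ 5` and every `n` there is a finite group `G` with `g ^ p = 1` for all `g`
and an automorphism `φ` of order `p` that is splitting (`g φ(g) ⋯ φ^(p-1)(g) = 1` for all `g`),
whose fixed points are central, while the derived length of `G` exceeds `n`. -/
theorem result (p : ℕ) (hp : p.Prime) (h5 : 5 ≤ p) (n : ℕ) :
    ∃ (G : Type) (_ : Group G) (_ : Finite G) (φ : MulAut G),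
      (∀ g : G, g ^ p = 1) ∧ orderOf φ = p ∧
      (∀ g : G, ((List.range p).map fun i => (φ ^ i) g).prod = 1) ∧
      (∀ g : G, φ g = g → g ∈ Subgroup.center G) ∧ derivedSeries G n ≠ ⊥ :=
  haveI : Fact p.Prime := ⟨hp⟩
  Pool.Agent.P.MP_29765e_al.All.all_primes h5 n

end Pool.Agent.Results.MP_29765e_al.AllPrimes
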